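import Mathlib
import Pool.Agent.H509R3.Yao.Exist

set_option autoImplicit false
open Polynomial Filter Topology IsDedekindDomain

namespace Pool.Agent.Results.MP_253687_nt.AlgebraicDigits

universe u

/-- `D_{j,v}`: the product of all monic polynomials of degree `j` over `F` that are not divisible by `v`. -/
noncomputable def D {F : Type u} [Field F] (v : F[X]) (j : ℕ) : F[X] :=
  ∏ᶠ P ∈ {P : F[X] | P.Monic ∧ P.natDegree = j ∧ ¬ v ∣ P}, P

/-- The place of `F(t)` attached to an irreducible polynomial `v`. -/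
noncomputable def place {F : Type u} [Field F] (v : F[X]) (hv : Irreducible v) : HeightOneSpectrum F[X] where
  asIdeal := Ideal.span {v}
  isPrime := (Ideal.span_singleton_prime hv.ne_zero).mpr hv.prime
  ne_bot := fun h => hv.ne_zero (Ideal.span_singleton_eq_bot.mp h)

/-- `K_v`, the completion of `K = F(t)` at `v`. -/
abbrev Kv {F : Type u} [Field F] (v : F[X]) (hv : Irreducible v) : Type u :=
  (place v hv).adicCompletion (RatFunc F)

/-- The `N`-th partial product of `∏_{j ≥ 0} (-D_{j,v})^{a_j}`, an element of `K_v`. -/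
noncomputable def partialProd {F : Type u} [Field F] (v : F[X]) (hv : Irreducible v) (a : ℕ → ℕ) (N : ℕ) : Kv v hv :=
  ∏ j ∈ Finset.range N, (algebraMap F[X] (Kv v hv) (-(D v j))) ^ a j

/-- `x` is the value `Π_v(n)`, where `a` is the sequence of base-`q` digits of `n`:
the infinite product `∏_{j ≥ 0} (-D_{j,v})^{a_j}` converges to `x` in `K_v`. -/
def IsPiValue {F : Type u} [Field F] (v : F[X]) (hv : Irreducible v) (a : ℕ → ℕ) (x : Kv v hv) : Prop :=
  Tendsto (partialProd v hv a) atTop (𝓝 x)

/-- `a` is the sequence of base-`q` digits of the `p`-adic integer `n`: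
`0 ≤ a_j < q` and `n = ∑_j a_j q^j`. -/
def IsDigits (p : ℕ) [Fact p.Prime] (q : ℕ) (n : ℤ_[p]) (a : ℕ → ℕ) : Prop :=
  (∀ j, a j < q) ∧ HasSum (fun j => (a j : ℤ_[p]) * (q : ℤ_[p]) ^ j) n

lemma D_eq {F : Type u} [Field F] [Fintype F] (v : F[X]) (j : ℕ) : D v j = H509R3.Yao.Dv v j := by
  classical
  unfold D H509R3.Yao.Dv
  rw [← finprod_mem_coe_finset]
  have : {P : F[X] | P.Monic ∧ P.natDegree = j ∧ ¬ v ∣ P} =
      (((H509R3.Yao.Mon j).filter (fun P => ¬ v ∣ P) : Finset F[X]) : Set F[X]) := by
    ext P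
    simp only [Set.mem_setOf_eq, Finset.coe_filter, H509R3.Yao.mem_Mon]
    tauto
  rw [this]

lemma partialProd_eq {F : Type u} [Field F] [Fintype F] (v : F[X]) (hv : Irreducible v) (a : ℕ → ℕ) :
    partialProd v hv a = fun N => ∏ j ∈ Finset.range N, (algebraMap F[X] (Kv v hv) (-(H509R3.Yao.Dv v j))) ^ a j := by
  funext N
  unfold partialProd
  simp only [D_eq]

/-- Q1 for every monic irreducible `v`: the value `Π_v(n)` exists and is unique, and if it is algebraic
over `K = F(t)` then the base-`q` digits of `n` are ultimately periodic of period `deg v`. -/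
theorem result (p : ℕ) [Fact p.Prime] (F : Type u) [Field F] [Fintype F] [CharP F p]
    (v : F[X]) (hmonic : v.Monic) (hirr : Irreducible v)
    (n : ℤ_[p]) (a : ℕ → ℕ) (hdigits : IsDigits p (Fintype.card F) n a) :
    (∃! x : Kv v hirr, IsPiValue v hirr a x) ∧
    ∀ x : Kv v hirr, IsPiValue v hirr a x → IsAlgebraic (RatFunc F) x →
      ∃ J : ℕ, ∀ j ≥ J, a (j + v.natDegree) = a j := by
  constructor
  · obtain ⟨x, hx⟩ := H509R3.Yao.exists_Pi v hmonic hirr (place v hirr) rfl a
    refine ⟨x, ?_, fun y hy => ?_⟩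
    · change Tendsto (partialProd v hirr a) atTop (𝓝 x)
      rw [partialProd_eq]; exact hx
    · change Tendsto (partialProd v hirr a) atTop (𝓝 y) at hy
      rw [partialProd_eq] at hy
      exact tendsto_nhds_unique hy hx
  · intro x hx halg
    change Tendsto (partialProd v hirr a) atTop (𝓝 x) at hx
    rw [partialProd_eq] at hx
    exact H509R3.Yao.main_Kv p v hmonic hirr (place v hirr) rfl a hdigits.1 x hx halg

end Pool.Agent.Results.MP_253687_nt.AlgebraicDigits
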